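import Pool.Agent.H51.LZ.Defs
import Pool.Agent.H67.Tame.SCV

/-!
# The coefficient of the pull-back of a holomorphic volume form
-/

set_option autoImplicit false
set_option linter.unusedSectionVars false

open Set Filter Topology Metric MeasureTheory
open scoped Manifold ContDiff NNReal

namespace Pool.Agent.H78.LZ

open Pool.Agent.H51.LZ

variable {n : ℕ} {X : Type} [TopologicalSpace X] [ChartedSpace (Cn n) X]

/-- the domain of `e' ∘ g ∘ e⁻¹` -/
def dom (e e' : OpenPartialHomeomorph X (Cn n)) (g : X ≃ₜ X) : Set (Cn n) :=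
  e.target ∩ e.symm ⁻¹' (g ⁻¹' e'.source)

/-- `e' ∘ g ∘ e⁻¹` -/
noncomputable def rep (e e' : OpenPartialHomeomorph X (Cn n)) (g : X ≃ₜ X) : Cn n → Cn n :=
  fun z => e' (g (e.symm z))

lemma isOpen_dom (e e' : OpenPartialHomeomorph X (Cn n)) (g : X ≃ₜ X) : IsOpen (dom e e' g) :=
  e.isOpen_inter_preimage_symm (e'.open_source.preimage g.continuous)

lemma mem_dom {e e' : OpenPartialHomeomorph X (Cn n)} {g : X ≃ₜ X} {x : X} (hx : x ∈ e.source)
    (hx' : g x ∈ e'.source) : e x ∈ dom e e' g :=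
  ⟨e.map_source hx, by
    change g (e.symm (e x)) ∈ e'.source
    rwa [e.left_inv hx]⟩

lemma injOn_rep (e e' : OpenPartialHomeomorph X (Cn n)) (g : X ≃ₜ X) :
    InjOn (rep e e' g) (dom e e' g) := by
  intro z hz w hw h
  have h1 := e'.injOn hz.2 hw.2 h
  have h2 := g.injective h1
  exact e.symm.injOn hz.1 hw.1 h2

variable [IsManifold 𝓘(ℂ, Cn n) 1 X]

lemma differentiableOn_rep {e e' : OpenPartialHomeomorph X (Cn n)} (he : e ∈ atlas (Cn n) X)
    (he' : e' ∈ atlas (Cn n) X) {g : X ≃ₜ X} (hg : MDifferentiable 𝓘(ℂ, Cn n) 𝓘(ℂ, Cn n) g) :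
    DifferentiableOn ℂ (rep e e' g) (dom e e' g) := by
  rw [← mdifferentiableOn_iff_differentiableOn]
  have h1 : MDifferentiableOn 𝓘(ℂ, Cn n) 𝓘(ℂ, Cn n) e.symm e.target :=
    mdifferentiableOn_atlas_symm he
  have h2 : MDifferentiableOn 𝓘(ℂ, Cn n) 𝓘(ℂ, Cn n) e' e'.source :=
    mdifferentiableOn_atlas he'
  have h3 : MDifferentiableOn 𝓘(ℂ, Cn n) 𝓘(ℂ, Cn n) (fun z => g (e.symm z)) (dom e e' g) :=
    (hg.comp_mdifferentiableOn (h1.mono inter_subset_left))
  exact h2.comp h3 (fun z hz => hz.2)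

lemma hasFDerivAt_rep {e e' : OpenPartialHomeomorph X (Cn n)} (he : e ∈ atlas (Cn n) X)
    (he' : e' ∈ atlas (Cn n) X) {g : X ≃ₜ X} (hg : MDifferentiable 𝓘(ℂ, Cn n) 𝓘(ℂ, Cn n) g)
    {z : Cn n} (hz : z ∈ dom e e' g) :
    HasFDerivAt (rep e e' g) (fderiv ℂ (rep e e' g) z) z :=
  ((differentiableOn_rep he he' hg).differentiableAt
    ((isOpen_dom e e' g).mem_nhds hz)).hasFDerivAt

/-- the coefficient `g^*W / W` in the charts `e`, `e'`, as a function of `z`. -/
noncomputable def cz (W : VolumeForm n X) (e e' : OpenPartialHomeomorph X (Cn n)) (g : X ≃ₜ X)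
    (z : Cn n) : ℂ :=
  W.f e' (rep e e' g z) * (fderiv ℂ (rep e e' g) z).det / W.f e z

lemma continuousLinearMap_det_comp (A B : Cn n →L[ℂ] Cn n) : (A.comp B).det = A.det * B.det := by
  change LinearMap.det ((A : Cn n →ₗ[ℂ] Cn n) ∘ₗ (B : Cn n →ₗ[ℂ] Cn n)) = _
  rw [LinearMap.det_comp]

lemma trans' (W : VolumeForm n X) {e e' : OpenPartialHomeomorph X (Cn n)}
    (he : e ∈ atlas (Cn n) X) (he' : e' ∈ atlas (Cn n) X) {x : X} (hx : x ∈ e.source)
    (hx' : x ∈ e'.source) :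
    W.f e (e x) = W.f e' (e' x) * (fderiv ℂ (rep e e' (Homeomorph.refl X)) (e x)).det := by
  have h := W.trans e he e' he' (e x) ⟨e.map_source hx, by
    change e.symm (e x) ∈ e'.source
    rwa [e.left_inv hx]⟩
  rw [e.left_inv hx] at h
  exact h

lemma cz_indep (W : VolumeForm n X) {e1 e2 e1' e2' : OpenPartialHomeomorph X (Cn n)}
    (he1 : e1 ∈ atlas (Cn n) X) (he2 : e2 ∈ atlas (Cn n) X) (he1' : e1' ∈ atlas (Cn n) X)
    (he2' : e2' ∈ atlas (Cn n) X) {g : X ≃ₜ X}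
    (hg : MDifferentiable 𝓘(ℂ, Cn n) 𝓘(ℂ, Cn n) g) {x : X} (hx1 : x ∈ e1.source)
    (hx2 : x ∈ e2.source) (hx1' : g x ∈ e1'.source) (hx2' : g x ∈ e2'.source) :
    cz W e1 e1' g (e1 x) = cz W e2 e2' g (e2 x) := by
  have hid : MDifferentiable 𝓘(ℂ, Cn n) 𝓘(ℂ, Cn n) (Homeomorph.refl X) := mdifferentiable_id
  -- the three maps
  have d1 := hasFDerivAt_rep he1 he2 hid (mem_dom (g := Homeomorph.refl X) hx1 hx2)
  have d2 := hasFDerivAt_rep he2 he2' hg (mem_dom hx2 hx2')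
  have d3 := hasFDerivAt_rep he2' he1' hid (mem_dom (g := Homeomorph.refl X) hx2' hx1')
  have e1x : rep e1 e2 (Homeomorph.refl X) (e1 x) = e2 x := by
    change e2 (e1.symm (e1 x)) = e2 x
    rw [e1.left_inv hx1]
  have e2x : rep e2 e2' g (e2 x) = e2' (g x) := by
    change e2' (g (e2.symm (e2 x))) = _
    rw [e2.left_inv hx2]
  have e3x : rep e1 e1' g (e1 x) = e1' (g x) := by
    change e1' (g (e1.symm (e1 x))) = _
    rw [e1.left_inv hx1]
  have hcomp : HasFDerivAt (fun z => rep e2' e1' (Homeomorph.refl X)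
      (rep e2 e2' g (rep e1 e2 (Homeomorph.refl X) z)))
      ((fderiv ℂ (rep e2' e1' (Homeomorph.refl X)) (e2' (g x))).comp
        ((fderiv ℂ (rep e2 e2' g) (e2 x)).comp
          (fderiv ℂ (rep e1 e2 (Homeomorph.refl X)) (e1 x)))) (e1 x) := by
    have h12 : HasFDerivAt (fun z => rep e2 e2' g (rep e1 e2 (Homeomorph.refl X) z))
        ((fderiv ℂ (rep e2 e2' g) (e2 x)).comp
          (fderiv ℂ (rep e1 e2 (Homeomorph.refl X)) (e1 x))) (e1 x) := by
      have d2' : HasFDerivAt (rep e2 e2' g) (fderiv ℂ (rep e2 e2' g) (e2 x))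
          (rep e1 e2 (Homeomorph.refl X) (e1 x)) := by rw [e1x]; exact d2
      exact d2'.comp (e1 x) d1
    have d3' : HasFDerivAt (rep e2' e1' (Homeomorph.refl X))
        (fderiv ℂ (rep e2' e1' (Homeomorph.refl X)) (e2' (g x)))
        (rep e2 e2' g (rep e1 e2 (Homeomorph.refl X) (e1 x))) := by rw [e1x, e2x]; exact d3
    exact d3'.comp (e1 x) h12
  have hev : rep e1 e1' g =ᶠ[𝓝 (e1 x)] fun z => rep e2' e1' (Homeomorph.refl X)
      (rep e2 e2' g (rep e1 e2 (Homeomorph.refl X) z)) := by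
    have o1 : dom e1 e2 (Homeomorph.refl X) ∈ 𝓝 (e1 x) :=
      (isOpen_dom _ _ _).mem_nhds (mem_dom (g := Homeomorph.refl X) hx1 hx2)
    have o2 : dom e1 e2' g ∈ 𝓝 (e1 x) := (isOpen_dom _ _ _).mem_nhds (mem_dom hx1 hx2')
    filter_upwards [o1, o2] with z hz1 hz2
    change e1' (g (e1.symm z)) = e1' (e2'.symm (e2' (g (e2.symm (e2 (e1.symm z))))))
    have h3 : e1.symm z ∈ e2.source := hz1.2
    have h4 : g (e1.symm z) ∈ e2'.source := hz2.2
    rw [e2.left_inv h3, e2'.left_inv h4]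
  have hd : fderiv ℂ (rep e1 e1' g) (e1 x) =
      (fderiv ℂ (rep e2' e1' (Homeomorph.refl X)) (e2' (g x))).comp
        ((fderiv ℂ (rep e2 e2' g) (e2 x)).comp
          (fderiv ℂ (rep e1 e2 (Homeomorph.refl X)) (e1 x))) :=
    (hcomp.congr_of_eventuallyEq hev).fderiv
  have t1 := trans' W he1 he2 hx1 hx2
  have t2 := trans' W he2' he1' hx2' hx1'
  have n1 := W.ne_zero e1 he1 (e1 x) (e1.map_source hx1)
  have n2 := W.ne_zero e2 he2 (e2 x) (e2.map_source hx2)
  unfold cz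
  rw [hd, continuousLinearMap_det_comp, continuousLinearMap_det_comp, e3x, e2x,
    div_eq_div_iff n1 n2, t1, t2]
  ring

/-- the coefficient function on `X`. -/
noncomputable def coef (W : VolumeForm n X) (g : X ≃ₜ X) (x : X) : ℂ :=
  cz W (chartAt (Cn n) x) (chartAt (Cn n) (g x)) g (chartAt (Cn n) x x)

lemma coef_eq (W : VolumeForm n X) {e e' : OpenPartialHomeomorph X (Cn n)}
    (he : e ∈ atlas (Cn n) X) (he' : e' ∈ atlas (Cn n) X) {g : X ≃ₜ X}
    (hg : MDifferentiable 𝓘(ℂ, Cn n) 𝓘(ℂ, Cn n) g) {x : X} (hx : x ∈ e.source)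
    (hx' : g x ∈ e'.source) : coef W g x = cz W e e' g (e x) :=
  cz_indep W (chart_mem_atlas _ _) he (chart_mem_atlas _ _) he' hg (mem_chart_source _ _) hx
    (mem_chart_source _ _) hx'

lemma differentiableAt_prod {ι : Type} (s : Finset ι) {f : ι → Cn n → ℂ} {z : Cn n}
    (h : ∀ i ∈ s, DifferentiableAt ℂ (f i) z) :
    DifferentiableAt ℂ (fun w => ∏ i ∈ s, f i w) z := by
  classical
  induction s using Finset.induction_on with
  | empty => simp
  | insert a s ha ih =>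
    simp only [Finset.prod_insert ha]
    exact (h a (Finset.mem_insert_self a s)).fun_mul
      (ih fun i hi => h i (Finset.mem_insert_of_mem hi))

lemma differentiableAt_det {z : Cn n} {A : Cn n → (Cn n →L[ℂ] Cn n)}
    (hA : DifferentiableAt ℂ A z) : DifferentiableAt ℂ (fun w => (A w).det) z := by
  have h : ∀ w, (A w).det = ∑ σ : Equiv.Perm (Fin n), (Equiv.Perm.sign σ : ℤ) •
      ∏ i, (A w (Pi.single i 1)) (σ i) := by
    intro w
    have h1 : (A w).det = (LinearMap.toMatrix' (A w : Cn n →ₗ[ℂ] Cn n)).det := by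
      rw [ContinuousLinearMap.det, ← LinearMap.det_toMatrix']
    rw [h1, Matrix.det_apply']
    refine Finset.sum_congr rfl fun σ _ => ?_
    rw [zsmul_eq_mul]
    congr 1
  have h2 : (fun w => (A w).det) = fun w => ∑ σ : Equiv.Perm (Fin n), (Equiv.Perm.sign σ : ℤ) •
      ∏ i, (A w (Pi.single i 1)) (σ i) := funext h
  rw [h2]
  refine DifferentiableAt.fun_sum fun σ _ => ?_
  have h4 : DifferentiableAt ℂ (fun w => ∏ i : Fin n, (A w (Pi.single i 1)) (σ i)) z := by
    refine differentiableAt_prod _ fun i _ => ?_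
    have h3 : DifferentiableAt ℂ (fun w => A w (Pi.single i 1)) z :=
      hA.clm_apply (differentiableAt_const _)
    exact differentiableAt_pi.1 h3 (σ i)
  simp only [zsmul_eq_mul]
  exact h4.const_mul _

lemma differentiableAt_cz (W : VolumeForm n X) {e e' : OpenPartialHomeomorph X (Cn n)}
    (he : e ∈ atlas (Cn n) X) (he' : e' ∈ atlas (Cn n) X) {g : X ≃ₜ X}
    (hg : MDifferentiable 𝓘(ℂ, Cn n) 𝓘(ℂ, Cn n) g) {z : Cn n} (hz : z ∈ dom e e' g) :
    DifferentiableAt ℂ (cz W e e' g) z := by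
  have h1 : DifferentiableAt ℂ (W.f e) z :=
    (W.holo e he).differentiableAt (e.open_target.mem_nhds hz.1)
  have hz' : rep e e' g z ∈ e'.target := e'.map_source hz.2
  have h2 : DifferentiableAt ℂ (W.f e') (rep e e' g z) :=
    (W.holo e' he').differentiableAt (e'.open_target.mem_nhds hz')
  have h3 : DifferentiableAt ℂ (rep e e' g) z :=
    (differentiableOn_rep he he' hg).differentiableAt ((isOpen_dom e e' g).mem_nhds hz)
  have h4 : DifferentiableAt ℂ (fderiv ℂ (rep e e' g)) z :=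
    H67.Tame.differentiableAt_fderiv (isOpen_dom e e' g) (differentiableOn_rep he he' hg) hz
  have h5 : DifferentiableAt ℂ (fun w => W.f e' (rep e e' g w)) z := h2.comp z h3
  have h6 : DifferentiableAt ℂ (fun w => (W.f e w)⁻¹) z :=
    (differentiableAt_inv (W.ne_zero e he z hz.1)).comp z h1
  have h7 : cz W e e' g = fun w => W.f e' (rep e e' g w) * (fderiv ℂ (rep e e' g) w).det *
      (W.f e w)⁻¹ := by
    funext w
    rw [cz, div_eq_mul_inv]
  rw [h7]
  exact (h5.fun_mul (differentiableAt_det h4)).fun_mul h6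

lemma mdifferentiable_coef (W : VolumeForm n X) {g : X ≃ₜ X}
    (hg : MDifferentiable 𝓘(ℂ, Cn n) 𝓘(ℂ, Cn n) g) :
    MDifferentiable 𝓘(ℂ, Cn n) 𝓘(ℂ, ℂ) (coef W g) := by
  intro x
  set e := chartAt (Cn n) x with he
  set e' := chartAt (Cn n) (g x) with he'
  have hem : e ∈ atlas (Cn n) X := chart_mem_atlas _ _
  have hem' : e' ∈ atlas (Cn n) X := chart_mem_atlas _ _
  have hx : x ∈ e.source := mem_chart_source _ _
  have hx' : g x ∈ e'.source := mem_chart_source _ _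
  have h1 : MDifferentiableAt 𝓘(ℂ, Cn n) 𝓘(ℂ, Cn n) e x :=
    mdifferentiableAt_atlas hem hx
  have h2 : MDifferentiableAt 𝓘(ℂ, Cn n) 𝓘(ℂ, ℂ) (cz W e e' g) (e x) :=
    (differentiableAt_cz W hem hem' hg (mem_dom hx hx')).mdifferentiableAt
  have h3 := h2.comp x h1
  refine h3.congr_of_eventuallyEq ?_
  have o : e.source ∩ g ⁻¹' e'.source ∈ 𝓝 x :=
    (e.open_source.inter (e'.open_source.preimage g.continuous)).mem_nhds ⟨hx, hx'⟩
  filter_upwards [o] with y hy
  exact coef_eq W hem hem' hg hy.1 hy.2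

/-- `g^*W = c W`. -/
theorem exists_coef_const [CompactSpace X] [ConnectedSpace X] (W : VolumeForm n X) {g : X ≃ₜ X}
    (hg : MDifferentiable 𝓘(ℂ, Cn n) 𝓘(ℂ, Cn n) g) :
    ∃ c : ℂ, ∀ x, coef W g x = c := by
  obtain ⟨v, hv⟩ := (mdifferentiable_coef W hg).exists_eq_const_of_compactSpace
  exact ⟨v, fun x => congrFun hv x⟩

end Pool.Agent.H78.LZ
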