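import Pool.Agent.H36.LZ.Good
import Pool.Agent.H78.LZ.Coef

/-!
# An invariant measure from a nowhere vanishing holomorphic volume form
-/

set_option autoImplicit false
set_option linter.unusedSectionVars false

open Set Filter Topology Metric MeasureTheory
open scoped Manifold ContDiff NNReal ENNReal

namespace Pool.Agent.H78.LZ

open Pool.Agent.H51.LZ Pool.Agent.H36.LZ

variable {n : ℕ} {X : Type} [TopologicalSpace X] [ChartedSpace (Cn n) X]

/-- the density `|f e|^2` -/
noncomputable def den (W : VolumeForm n X) (e : OpenPartialHomeomorph X (Cn n)) (z : Cn n) : ℝ≥0∞ :=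
  ENNReal.ofReal (‖W.f e z‖ ^ 2)

lemma real_det (A : Cn n →L[ℂ] Cn n) : (A.restrictScalars ℝ).det = ‖A.det‖ ^ 2 := by
  have h := LinearMap.det_restrictScalars (R := ℝ) (S := ℂ) (A := Cn n)
    (f := (A : Cn n →ₗ[ℂ] Cn n))
  rw [ContinuousLinearMap.det, ContinuousLinearMap.coe_restrictScalars, h,
    Algebra.norm_complex_apply, Complex.normSq_eq_norm_sq]

section meas

variable [MeasurableSpace X] [BorelSpace X]

/-- `∫ |f e|^2` over `e (A)`. -/
noncomputable def nu (W : VolumeForm n X) (e : OpenPartialHomeomorph X (Cn n)) (A : Set X) : ℝ≥0∞ :=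
  ∫⁻ z in e.target ∩ e.symm ⁻¹' A, den W e z

lemma meas_pull (e : OpenPartialHomeomorph X (Cn n)) {A : Set X} (hA : MeasurableSet A) :
    MeasurableSet (e.target ∩ e.symm ⁻¹' A) := by
  have hc : ContinuousOn e.symm e.target := e.continuousOn_symm
  have h : Measurable (e.target.domRestrict e.symm) :=
    (continuousOn_iff_continuous_domRestrict.1 hc).measurable
  have h2 := (e.open_target.measurableSet).subtype_image (h hA)
  convert h2 using 1
  ext z
  constructor
  · rintro ⟨hz, hzA⟩
    exact ⟨⟨z, hz⟩, hzA, rfl⟩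
  · rintro ⟨⟨w, hw⟩, hwA, rfl⟩
    exact ⟨hw, hwA⟩

lemma meas_push (e : OpenPartialHomeomorph X (Cn n)) {O : Set X} (hO : IsOpen O)
    (hOe : O ⊆ e.source) {B : Set (Cn n)} (hB : MeasurableSet B) :
    MeasurableSet (e ⁻¹' B ∩ O) := by
  have hc : ContinuousOn e O := e.continuousOn.mono hOe
  have h : Measurable (O.domRestrict e) :=
    (continuousOn_iff_continuous_domRestrict.1 hc).measurable
  have h2 := hO.measurableSet.subtype_image (h hB)
  convert h2 using 1
  ext z
  constructor
  · rintro ⟨hz, hzO⟩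
    exact ⟨⟨z, hzO⟩, hz, rfl⟩
  · rintro ⟨⟨w, hw⟩, hwB, rfl⟩
    exact ⟨hwB, hw⟩

/-- additivity -/
lemma nu_add (W : VolumeForm n X) (e : OpenPartialHomeomorph X (Cn n)) {ι : Type} [Fintype ι]
    {P : ι → Set X} (hP : ∀ i, MeasurableSet (P i)) (hd : Pairwise (fun i j => Disjoint (P i) (P j)))
    (hu : ⋃ i, P i = univ) {A : Set X} (hA : MeasurableSet A) :
    nu W e A = ∑ i, nu W e (P i ∩ A) := by
  have h1 : e.target ∩ e.symm ⁻¹' A = ⋃ i, (e.target ∩ e.symm ⁻¹' (P i ∩ A)) := by
    rw [← inter_iUnion, ← preimage_iUnion, ← iUnion_inter, hu, univ_inter]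
  rw [nu, h1, lintegral_iUnion (fun i => meas_pull e ((hP i).inter hA)), tsum_fintype]
  · rfl
  · intro i j hij
    refine Disjoint.mono inter_subset_right inter_subset_right ?_
    exact Disjoint.preimage _ (Disjoint.mono inter_subset_left inter_subset_left (hd hij))

variable [IsManifold 𝓘(ℂ, Cn n) 1 X]

/-- CHANGE OF VARIABLES. -/
lemma change (W : VolumeForm n X) {e e' : OpenPartialHomeomorph X (Cn n)}
    (he : e ∈ atlas (Cn n) X) (he' : e' ∈ atlas (Cn n) X) {g : X ≃ₜ X}
    (hg : MDifferentiable 𝓘(ℂ, Cn n) 𝓘(ℂ, Cn n) g) {A : Set X} (hA : MeasurableSet A)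
    (h1 : A ⊆ e.source) (h2 : A ⊆ g ⁻¹' e'.source) {c : ℝ}
    (hc : ∀ x ∈ A, ‖coef W g x‖ ^ 2 = c) :
    nu W e' (g '' A) = ENNReal.ofReal c * nu W e A := by
  set S : Set (Cn n) := e.target ∩ e.symm ⁻¹' A with hS
  have hSm : MeasurableSet S := meas_pull e hA
  have hSd : S ⊆ dom e e' g := fun z hz => ⟨hz.1, h2 hz.2⟩
  have himg : rep e e' g '' S = e'.target ∩ e'.symm ⁻¹' (g '' A) := by
    ext w
    constructor
    · rintro ⟨z, hz, rfl⟩
      have h3 : g (e.symm z) ∈ e'.source := h2 hz.2
      refine ⟨e'.map_source h3, ?_⟩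
      change e'.symm (e' (g (e.symm z))) ∈ g '' A
      rw [e'.left_inv h3]
      exact mem_image_of_mem g hz.2
    · rintro ⟨hw, x, hx, hxw⟩
      refine ⟨e x, ⟨e.map_source (h1 hx), ?_⟩, ?_⟩
      · change e.symm (e x) ∈ A
        rwa [e.left_inv (h1 hx)]
      · change e' (g (e.symm (e x))) = w
        rw [e.left_inv (h1 hx), hxw, e'.right_inv hw]
  have hder : ∀ z ∈ S, HasFDerivWithinAt (rep e e' g)
      ((fderiv ℂ (rep e e' g) z).restrictScalars ℝ) S z := fun z hz =>
    ((hasFDerivAt_rep he he' hg (hSd hz)).restrictScalars ℝ).hasFDerivWithinAt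
  have hcv := lintegral_image_eq_lintegral_abs_det_fderiv_mul volume hSm hder
    ((injOn_rep e e' g).mono hSd) (den W e')
  rw [himg] at hcv
  rw [nu, hcv, nu, ← lintegral_const_mul' _ _ ENNReal.ofReal_ne_top]
  refine setLIntegral_congr_fun hSm fun z hz => ?_
  have hx : e.symm z ∈ e.source := e.map_target hz.1
  have hgx : g (e.symm z) ∈ e'.source := h2 hz.2
  have hco := coef_eq W he he' hg hx hgx
  rw [e.right_inv hz.1] at hco
  have hn := W.ne_zero e he z hz.1
  have h3 : W.f e' (rep e e' g z) * (fderiv ℂ (rep e e' g) z).det =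
      coef W g (e.symm z) * W.f e z := by
    rw [hco, cz, div_mul_cancel₀ _ hn]
  change ENNReal.ofReal |((fderiv ℂ (rep e e' g) z).restrictScalars ℝ).det| *
    den W e' (rep e e' g z) = ENNReal.ofReal c * den W e z
  rw [real_det, abs_of_nonneg (by positivity), den, den, ← ENNReal.ofReal_mul (by positivity),
    ← hc _ hz.2, ← ENNReal.ofReal_mul (by positivity)]
  congr 1
  rw [← mul_pow, ← norm_mul, mul_comm, h3, norm_mul, mul_pow]

lemma coef_refl (W : VolumeForm n X) (x : X) : coef W (Homeomorph.refl X) x = 1 := by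
  have he := chart_mem_atlas (Cn n) x
  have hx : x ∈ (chartAt (Cn n) x).source := mem_chart_source _ _
  have h := trans' W he he hx hx
  have hn := W.ne_zero _ he _ ((chartAt (Cn n) x).map_source hx)
  rw [coef_eq W he he mdifferentiable_id hx hx, cz]
  have e1 : rep (chartAt (Cn n) x) (chartAt (Cn n) x) (Homeomorph.refl X)
      ((chartAt (Cn n) x) x) = (chartAt (Cn n) x) x := by
    change (chartAt (Cn n) x) ((chartAt (Cn n) x).symm ((chartAt (Cn n) x) x)) = _
    rw [(chartAt (Cn n) x).left_inv hx]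
  rw [e1, ← h, div_self hn]

lemma nu_chart (W : VolumeForm n X) {e e' : OpenPartialHomeomorph X (Cn n)}
    (he : e ∈ atlas (Cn n) X) (he' : e' ∈ atlas (Cn n) X) {A : Set X} (hA : MeasurableSet A)
    (h1 : A ⊆ e.source) (h2 : A ⊆ e'.source) : nu W e' A = nu W e A := by
  have h := change W he he' (g := Homeomorph.refl X) mdifferentiable_id hA h1 h2 (c := 1)
    (fun x _ => by rw [coef_refl, norm_one, one_pow])
  rw [ENNReal.ofReal_one, one_mul] at h
  rw [← h]
  congr 1
  exact (image_id A).symm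

/-- a small open set with finite mass and bounded density -/
lemma exists_small (W : VolumeForm n X) (x : X) : ∃ O : Set X, IsOpen O ∧ x ∈ O ∧
    O ⊆ (chartAt (Cn n) x).source ∧ ∃ C : ℝ≥0,
      (∀ z ∈ (chartAt (Cn n) x).target, (chartAt (Cn n) x).symm z ∈ O →
        den W (chartAt (Cn n) x) z ≤ C) ∧ nu W (chartAt (Cn n) x) O < ⊤ := by
  set e := chartAt (Cn n) x with he
  have hx : x ∈ e.source := mem_chart_source _ _
  have hem : e ∈ atlas (Cn n) X := chart_mem_atlas _ _
  obtain ⟨r, hr, hball⟩ := Metric.nhds_basis_closedBall.mem_iff.1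
    (e.open_target.mem_nhds (e.map_source hx))
  have hcont : ContinuousOn (fun z => ‖W.f e z‖ ^ 2) (closedBall (e x) r) :=
    (((W.holo e hem).continuousOn.mono hball).norm).pow 2
  obtain ⟨K, hK⟩ := (isCompact_closedBall (e x) r).exists_bound_of_continuousOn hcont
  set O : Set X := e.source ∩ e ⁻¹' (ball (e x) r) with hO
  have hOo : IsOpen O := e.isOpen_inter_preimage isOpen_ball
  have hden : ∀ z ∈ e.target, e.symm z ∈ O → z ∈ ball (e x) r ∧ den W e z ≤ K.toNNReal := by
    intro z hz hzO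
    have h1 : e (e.symm z) ∈ ball (e x) r := hzO.2
    rw [e.right_inv hz] at h1
    refine ⟨h1, ?_⟩
    have h2 := hK z (ball_subset_closedBall h1)
    rw [Real.norm_of_nonneg (by positivity)] at h2
    exact ENNReal.ofReal_le_ofReal h2
  refine ⟨O, hOo, ⟨hx, mem_ball_self hr⟩, inter_subset_left, K.toNNReal,
    fun z hz hzO => (hden z hz hzO).2, ?_⟩
  calc nu W e O ≤ ∫⁻ _ in e.target ∩ e.symm ⁻¹' O, (K.toNNReal : ℝ≥0∞) :=
        setLIntegral_mono' (meas_pull e hOo.measurableSet) fun z hz => (hden z hz.1 hz.2).2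
    _ = K.toNNReal * volume (e.target ∩ e.symm ⁻¹' O) := setLIntegral_const _ _
    _ ≤ K.toNNReal * volume (ball (e x) r) := by
        gcongr
        exact fun z hz => (hden z hz.1 hz.2).1
    _ < ⊤ := ENNReal.mul_lt_top ENNReal.coe_lt_top measure_ball_lt_top

lemma exists_cover [CompactSpace X] (W : VolumeForm n X) :
    ∃ (m : ℕ) (e : Fin m → OpenPartialHomeomorph X (Cn n)) (D : Fin m → Set X),
      (∀ i, e i ∈ atlas (Cn n) X) ∧ (∀ i, MeasurableSet (D i)) ∧
      (Pairwise fun i j => Disjoint (D i) (D j)) ∧ (⋃ i, D i = univ) ∧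
      (∀ i, D i ⊆ (e i).source) ∧ ∀ i, nu W (e i) (D i) < ⊤ := by
  classical
  choose O hO hxO hOs C hC hfin using exists_small (n := n) W
  obtain ⟨t, -, ht⟩ := isCompact_univ.elim_nhds_subcover O
    (fun x _ => (hO x).mem_nhds (hxO x))
  let φ : Fin t.card ≃ t := t.equivFin.symm
  let U : Fin t.card → Set X := fun i => O (φ i)
  have hU : ⋃ i, U i = univ := by
    refine eq_univ_of_univ_subset fun y hy => ?_
    obtain ⟨x, hxt, hxy⟩ := mem_iUnion₂.1 (ht hy)
    refine mem_iUnion.2 ⟨φ.symm ⟨x, hxt⟩, ?_⟩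
    change y ∈ O (φ (φ.symm ⟨x, hxt⟩))
    rw [φ.apply_symm_apply]
    exact hxy
  refine ⟨t.card, fun i => chartAt (Cn n) (φ i : X), disjointed U, fun i => chart_mem_atlas _ _,
    fun i => disjointedRec (p := MeasurableSet)
      (fun _ j ht => MeasurableSet.diff ht (hO (φ j)).measurableSet) (hO (φ i)).measurableSet,
    disjoint_disjointed U,
    by rw [iUnion_disjointed, hU], fun i => (disjointed_subset U i).trans (hOs _), fun i => ?_⟩
  refine lt_of_le_of_lt ?_ (hfin (φ i))
  refine lintegral_mono_set ?_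
  exact inter_subset_inter_right _ (preimage_mono (disjointed_subset U i))

/-- THE INVARIANT MEASURE. -/
theorem exists_invariant_measure [T2Space X] [CompactSpace X] [ConnectedSpace X]
    (W : VolumeForm n X) (g : X ≃ₜ X) (hg : MDifferentiable 𝓘(ℂ, Cn n) 𝓘(ℂ, Cn n) g) :
    ∃ μ : Measure X, GoodMeasure n μ ∧ MeasurePreserving g μ μ := by
  classical
  obtain ⟨m, e, D, heA, hDm, hDd, hDu, hDs, hDf⟩ := exists_cover (n := n) W
  obtain ⟨c0, hc0⟩ := exists_coef_const W hg
  -- the measure
  let μ0 : Measure X := ∑ i, Measure.map (e i).symm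
    ((volume.withDensity (den W (e i))).restrict ((e i).target ∩ (e i).symm ⁻¹' D i))
  have happ : ∀ A, MeasurableSet A → μ0 A = ∑ i, nu W (e i) (D i ∩ A) := by
    intro A hA
    change (∑ i, Measure.map (e i).symm
      ((volume.withDensity (den W (e i))).restrict ((e i).target ∩ (e i).symm ⁻¹' D i))) A = _
    rw [Measure.finsetSum_apply]
    refine Finset.sum_congr rfl fun i _ => ?_
    have hae : AEMeasurable (e i).symm
        ((volume.withDensity (den W (e i))).restrict ((e i).target ∩ (e i).symm ⁻¹' D i)) :=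
      ((e i).continuousOn_symm.mono inter_subset_left).aemeasurable (meas_pull (e i) (hDm i))
    rw [Measure.map_apply_of_aemeasurable hae hA, Measure.restrict_apply' (meas_pull (e i) (hDm i))]
    have hset : (e i).symm ⁻¹' A ∩ ((e i).target ∩ (e i).symm ⁻¹' D i) =
        (e i).target ∩ (e i).symm ⁻¹' (D i ∩ A) := by
      ext z
      simp only [mem_inter_iff, mem_preimage]
      tauto
    rw [hset, withDensity_apply _ (meas_pull (e i) ((hDm i).inter hA))]
    rfl
  -- its value on subsets of charts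
  have hP : ∀ (a : OpenPartialHomeomorph X (Cn n)), a ∈ atlas (Cn n) X → ∀ A, MeasurableSet A →
      A ⊆ a.source → μ0 A = nu W a A := by
    intro a ha A hA hAa
    rw [happ A hA, nu_add W a hDm hDd hDu hA]
    refine Finset.sum_congr rfl fun i _ => ?_
    exact nu_chart W ha (heA i) ((hDm i).inter hA) (inter_subset_right.trans hAa)
      (inter_subset_left.trans (hDs i))
  -- transformation rule
  have hT : ∀ A, MeasurableSet A → μ0 (g '' A) = ENNReal.ofReal (‖c0‖ ^ 2) * μ0 A := by
    intro A hA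
    have hgm : ∀ B, MeasurableSet B → MeasurableSet (g '' B) := fun B hB =>
      g.toMeasurableEquiv.measurableSet_image.2 hB
    have hgp : ∀ B, MeasurableSet B → MeasurableSet (g ⁻¹' B) := fun B hB =>
      g.continuous.measurable hB
    rw [happ _ (hgm A hA), happ A hA, Finset.mul_sum]
    have e1 : ∀ j, nu W (e j) (D j ∩ g '' A) =
        ∑ i, ENNReal.ofReal (‖c0‖ ^ 2) * nu W (e i) (g ⁻¹' D j ∩ (D i ∩ A)) := by
      intro j
      rw [nu_add W (e j) (P := fun i => g '' D i) (fun i => hgm _ (hDm i)) ?_ ?_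
        ((hDm j).inter (hgm A hA))]
      · refine Finset.sum_congr rfl fun i _ => ?_
        have hset : g '' D i ∩ (D j ∩ g '' A) = g '' (g ⁻¹' D j ∩ (D i ∩ A)) := by
          ext y
          constructor
          · rintro ⟨⟨x, hx, rfl⟩, hy, x', hx', hxx⟩
            have : x' = x := g.injective hxx
            subst this
            exact ⟨x', ⟨hy, hx, hx'⟩, rfl⟩
          · rintro ⟨x, ⟨hy, hx, hx'⟩, rfl⟩
            exact ⟨mem_image_of_mem g hx, hy, mem_image_of_mem g hx'⟩
        rw [hset]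
        exact change W (heA i) (heA j) hg ((hgp _ (hDm j)).inter ((hDm i).inter hA))
          (fun x hx => hDs i hx.2.1) (fun x hx => hDs j hx.1) (fun x _ => by rw [hc0])
      · intro i j hij
        exact (disjoint_image_iff g.injective).2 (hDd hij)
      · rw [← image_iUnion, hDu, image_univ, g.surjective.range_eq]
    simp only [e1]
    rw [Finset.sum_comm]
    refine Finset.sum_congr rfl fun i _ => ?_
    rw [← Finset.mul_sum, ← nu_add W (e i) (P := fun j => g ⁻¹' D j) (fun j => hgp _ (hDm j)) ?_ ?_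
      ((hDm i).inter hA)]
    · intro j k hjk
      exact (hDd hjk).preimage g
    · rw [← preimage_iUnion, hDu, preimage_univ]
  -- total mass
  have hfin : μ0 univ ≠ ⊤ := by
    rw [happ univ MeasurableSet.univ]
    refine (ENNReal.sum_lt_top.2 fun i _ => ?_).ne
    rw [inter_univ]
    exact hDf i
  have hpos : μ0 univ ≠ 0 := by
    intro h0
    obtain ⟨x⟩ := (inferInstance : Nonempty X)
    have hem : chartAt (Cn n) x ∈ atlas (Cn n) X := chart_mem_atlas _ _
    have h1 : μ0 (chartAt (Cn n) x).source = 0 := measure_mono_null (subset_univ _) h0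
    rw [hP _ hem _ (chartAt (Cn n) x).open_source.measurableSet subset_rfl, nu] at h1
    have h2 : (chartAt (Cn n) x).target ∩ (chartAt (Cn n) x).symm ⁻¹' (chartAt (Cn n) x).source =
        (chartAt (Cn n) x).target :=
      inter_eq_left.2 fun z hz => (chartAt (Cn n) x).map_target hz
    rw [h2] at h1
    have hopen := (chartAt (Cn n) x).open_target
    have hmeas : AEMeasurable (den W (chartAt (Cn n) x))
        (volume.restrict (chartAt (Cn n) x).target) := by
      have hc : ContinuousOn (fun z => ENNReal.ofReal (‖W.f (chartAt (Cn n) x) z‖ ^ 2))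
          (chartAt (Cn n) x).target :=
        ENNReal.continuous_ofReal.comp_continuousOn
          (((W.holo _ hem).continuousOn.norm).pow 2)
      exact hc.aemeasurable hopen.measurableSet
    rw [lintegral_eq_zero_iff' hmeas] at h1
    have h3 : ∀ᵐ z ∂(volume.restrict (chartAt (Cn n) x).target), False := by
      rw [ae_restrict_iff' hopen.measurableSet]
      have h1' := (ae_restrict_iff' hopen.measurableSet).1 h1
      filter_upwards [h1'] with z hz hzt
      have h4 := hz hzt
      have h5 : 0 < ‖W.f (chartAt (Cn n) x) z‖ ^ 2 := by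
        have := norm_pos_iff.2 (W.ne_zero _ hem z hzt)
        positivity
      have h6 : ENNReal.ofReal (‖W.f (chartAt (Cn n) x) z‖ ^ 2) = 0 := h4
      rw [ENNReal.ofReal_eq_zero] at h6
      linarith
    have h7 : volume.restrict (chartAt (Cn n) x).target = 0 := by
      rw [← ae_eq_bot]
      exact Filter.eventually_false_iff_eq_bot.1 h3
    rw [Measure.restrict_eq_zero] at h7
    exact (hopen.measure_pos volume ⟨_, (chartAt (Cn n) x).map_source
      (mem_chart_source _ _)⟩).ne' h7
  -- `|c| = 1`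
  have hc1 : ENNReal.ofReal (‖c0‖ ^ 2) = 1 := by
    have h := hT univ MeasurableSet.univ
    rw [image_univ, g.surjective.range_eq] at h
    have h2 : 1 * μ0 univ = ENNReal.ofReal (‖c0‖ ^ 2) * μ0 univ := by rw [one_mul]; exact h
    exact ((ENNReal.mul_left_inj hpos hfin).1 h2).symm
  have hinv : ∀ A, MeasurableSet A → μ0 (g ⁻¹' A) = μ0 A := by
    intro A hA
    have h := hT (g ⁻¹' A) (g.continuous.measurable hA)
    rw [image_preimage_eq A g.surjective, hc1, one_mul] at h
    exact h.symm
  refine ⟨(μ0 univ)⁻¹ • μ0, ⟨⟨?_⟩, fun x => ?_⟩, g.continuous.measurable, ?_⟩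
  · rw [Measure.smul_apply, smul_eq_mul, ENNReal.inv_mul_cancel hpos hfin]
  · obtain ⟨O, hO, hxO, hOs, C, hC, -⟩ := exists_small (n := n) W x
    refine ⟨O, hO, hxO, hOs, ((μ0 univ)⁻¹).toNNReal * C, ?_⟩
    rw [Measure.le_iff]
    intro B hB
    have hae : AEMeasurable (chartAt (Cn n) x) (((μ0 univ)⁻¹ • μ0).restrict O) :=
      ((chartAt (Cn n) x).continuousOn.mono hOs).aemeasurable hO.measurableSet
    rw [Measure.map_apply_of_aemeasurable hae hB, Measure.restrict_apply' hO.measurableSet,
      Measure.smul_apply, smul_eq_mul]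
    have hm := meas_push (chartAt (Cn n) x) hO hOs hB
    rw [hP _ (chart_mem_atlas _ _) _ hm (inter_subset_right.trans hOs)]
    have hle : nu W (chartAt (Cn n) x) ((chartAt (Cn n) x) ⁻¹' B ∩ O) ≤ C * volume B := by
      calc nu W (chartAt (Cn n) x) ((chartAt (Cn n) x) ⁻¹' B ∩ O)
          ≤ ∫⁻ _ in (chartAt (Cn n) x).target ∩
              (chartAt (Cn n) x).symm ⁻¹' ((chartAt (Cn n) x) ⁻¹' B ∩ O), (C : ℝ≥0∞) :=
            setLIntegral_mono' (meas_pull _ hm) fun z hz => hC z hz.1 hz.2.2
        _ = C * volume ((chartAt (Cn n) x).target ∩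
              (chartAt (Cn n) x).symm ⁻¹' ((chartAt (Cn n) x) ⁻¹' B ∩ O)) := setLIntegral_const _ _
        _ ≤ C * volume B := by
            gcongr
            intro z hz
            have h1 : (chartAt (Cn n) x) ((chartAt (Cn n) x).symm z) ∈ B := hz.2.1
            rwa [(chartAt (Cn n) x).right_inv hz.1] at h1
    calc (μ0 univ)⁻¹ * nu W (chartAt (Cn n) x) ((chartAt (Cn n) x) ⁻¹' B ∩ O)
        ≤ (μ0 univ)⁻¹ * (C * volume B) := by gcongr
      _ = ((((μ0 univ)⁻¹).toNNReal * C : ℝ≥0) • (volume : Measure (Cn n))) B := by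
          rw [Measure.smul_apply, ENNReal.smul_def, smul_eq_mul, ENNReal.coe_mul,
            ENNReal.coe_toNNReal (ENNReal.inv_ne_top.2 hpos), mul_assoc]
  · ext A hA
    rw [Measure.map_apply g.continuous.measurable hA, Measure.smul_apply, Measure.smul_apply,
      hinv A hA]

end meas

end Pool.Agent.H78.LZ
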